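import Pool.Agent.Helper82.SG.St

/-!
# Project SG, module SHF: choice of the shift
-/

set_option autoImplicit false

namespace Pool.Agent.Helper36.SG

open Finset Real MeasureTheory Pool.Agent.Helper77.Steiner Pool.Agent.Helper82.SG
open Pool.Agent.Helper18.GP (nlen NConn)
open scoped ENNReal

/-- the integer depths -/
private def dep (n : ℕ) (par : ℕ → ℕ) (c : ℕ → ℕ) : ℕ → ℕ
  | i => if _ : 1 ≤ i ∧ i ≤ n ∧ par i < i then dep n par c (par i) + c i else 0
termination_by i => i
decreasing_by all_goals (rename_i h; exact h.2.2)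

private theorem dep_eq (n : ℕ) (par : ℕ → ℕ) (c : ℕ → ℕ) (i : ℕ)
    (h : 1 ≤ i ∧ i ≤ n ∧ par i < i) : dep n par c i = dep n par c (par i) + c i := by
  rw [dep, dif_pos h]

open Classical in
theorem hSHF : StSHF := by
  intro n K par e w ε hpar he hw hK hε
  set W : ℝ := ∑ i ∈ Icc 1 n, w i with hW
  set E : ℝ := ∑ i ∈ Icc 1 n, e i with hE
  have hW0 : 0 ≤ W := sum_nonneg fun i _ => (hw i).le
  set U : ℕ := ⌈W / ε⌉₊ + 1 with hU
  have hU1 : 1 ≤ U := by omega
  have hUr : (1 : ℝ) ≤ U := by exact_mod_cast hU1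
  have hKr : (1 : ℝ) ≤ K := by exact_mod_cast hK
  have hWU : W ≤ ε * U := by
    have h1 : W / ε ≤ U := by
      have := Nat.le_ceil (W / ε)
      rw [hU]
      push_cast
      linarith
    rw [div_le_iff₀ hε] at h1
    linarith
  set c : ℕ → ℕ := fun i => ⌈(U : ℝ) * e i / w i⌉₊ with hc
  set t : ℕ → ℕ := dep n par c with ht
  have hteq : ∀ i, 1 ≤ i → i ≤ n → t i = t (par i) + c i := fun i h1 h2 =>
    dep_eq n par c i ⟨h1, h2, hpar i h1 h2⟩
  have hq0 : ∀ i, 0 ≤ (U : ℝ) * e i / w i := fun i =>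
    div_nonneg (mul_nonneg (by linarith) (he i)) (hw i).le
  have hc1 : ∀ i, (U : ℝ) * e i ≤ w i * c i := by
    intro i
    have h1 : (U : ℝ) * e i / w i ≤ c i := Nat.le_ceil _
    rw [div_le_iff₀ (hw i)] at h1
    linarith
  have hc2 : ∀ i, w i * c i ≤ (U : ℝ) * e i + w i := by
    intro i
    have h1 : (c i : ℝ) < (U : ℝ) * e i / w i + 1 := Nat.ceil_lt_add_one (hq0 i)
    have h2 := mul_lt_mul_of_pos_left h1 (hw i)
    have h3 : w i * ((U : ℝ) * e i / w i + 1) = (U : ℝ) * e i + w i := by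
      have := (hw i).ne'
      field_simp
    linarith
  -- the sums
  set Pr : ℕ → ℕ → Prop := fun θ i => ∃ m, t (par i) < m ∧ m ≤ t i ∧ m % (K * U) = θ with hPr
  have hcount : ∀ i ∈ Icc 1 n,
      ((range (K * U)).filter (fun θ => Pr θ i)).card ≤ c i := by
    intro i hi
    rw [mem_Icc] at hi
    have h1 : (range (K * U)).filter (fun θ => Pr θ i) ⊆
        (Ioc (t (par i)) (t i)).image (fun m => m % (K * U)) := by
      intro θ hθ
      obtain ⟨m, h1, h2, h3⟩ := (mem_filter.1 hθ).2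
      exact mem_image.2 ⟨m, mem_Ioc.2 ⟨h1, h2⟩, h3⟩
    refine (card_le_card h1).trans (card_image_le.trans ?_)
    rw [Nat.card_Ioc, hteq i hi.1 hi.2]
    omega
  have hsum : ∑ θ ∈ range (K * U), ∑ i ∈ (Icc 1 n).filter (fun i => Pr θ i), w i ≤
      (U : ℝ) * E + W := by
    have h1 : ∀ θ, ∑ i ∈ (Icc 1 n).filter (fun i => Pr θ i), w i =
        ∑ i ∈ Icc 1 n, if Pr θ i then w i else 0 := fun θ => sum_filter _ _
    rw [sum_congr rfl fun θ _ => h1 θ, sum_comm]
    have h2 : ∀ i ∈ Icc 1 n, ∑ θ ∈ range (K * U), (if Pr θ i then w i else 0) ≤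
        (U : ℝ) * e i + w i := by
      intro i hi
      rw [← sum_filter, sum_const, nsmul_eq_mul]
      have h3 : ((((range (K * U)).filter (fun θ => Pr θ i)).card : ℕ) : ℝ) ≤ c i := by
        exact_mod_cast hcount i hi
      have h4 := mul_le_mul_of_nonneg_right h3 (hw i).le
      have h5 := hc2 i
      linarith
    refine (sum_le_sum h2).trans (le_of_eq ?_)
    rw [sum_add_distrib, ← mul_sum]
  have hKU : 0 < K * U := by positivity
  obtain ⟨θ, hθ, hθS⟩ := exists_le_of_sum_le (s := range (K * U))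
    (f := fun θ => ∑ i ∈ (Icc 1 n).filter (fun i => Pr θ i), w i)
    (g := fun _ => ((U : ℝ) * E + W) / ((K : ℝ) * U)) ⟨0, mem_range.2 hKU⟩ (by
      rw [sum_const, card_range, nsmul_eq_mul]
      refine hsum.trans (le_of_eq ?_)
      push_cast
      field_simp)
  refine ⟨U, θ, t, hU1, mem_range.1 hθ, ?_, ?_, ?_⟩
  · intro i h1 h2
    rw [hteq i h1 h2]
    omega
  · intro i h1 h2
    rw [hteq i h1 h2]
    push_cast
    have e1 : (t (par i) : ℝ) + c i - t (par i) = c i := by ring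
    rw [e1]
    exact hc1 i
  · refine le_trans (le_of_eq ?_) (hθS.trans ?_)
    · rfl
    · have h1 : ((U : ℝ) * E + W) / ((K : ℝ) * U) = E / K + W / ((K : ℝ) * U) := by
        field_simp
      rw [h1]
      have h2 : W / ((K : ℝ) * U) ≤ ε := by
        rw [div_le_iff₀ (by positivity)]
        have h3 : ε * U ≤ ε * ((K : ℝ) * U) := by
          refine mul_le_mul_of_nonneg_left ?_ hε.le
          nlinarith
        linarith
      linarith

end Pool.Agent.Helper36.SG
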